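import Mathlib
import Pool.Agent.Helper88.M.Pt
import Pool.Agent.Helper60.P.Nice
import Pool.Agent.Helper66.P.Nice2
import Pool.Agent.Helper91.P.Nice3

/-!
# Theorem M+, block PT: general coefficients are nice
-/

set_option autoImplicit false

namespace Pool.Agent.Helper88.P

open MvPolynomial Pool.Agent.Helper47.M Pool.Agent.Helper47.P Pool.Agent.Helper88.M

variable {k l : ℕ} {N : Fin k → ℕ} {d : Fin l → Fin k → ℕ}

theorem exists_nice (h : Tc N d) :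
    ∃ Δ : MvPolynomial (Tx N d) ℚ, Δ ≠ 0 ∧ ∀ (K : Type) [Field K] [CharZero K] (c : Tx N d → K),
      aeval c Δ ≠ 0 → AllNice K c := by
  have h0 := prod_delta (ι := Tx N d) (I := {r : Fin k // N r = l + 1})
    (fun r K _ _ c => ∀ (Ω : Type) [Field Ω] [Algebra K Ω] (x : Pt N Ω), GenPt K c r.1 x →
      ¬ (x r.1 0 = 0 ∧ x r.1 1 = 0)) (fun r => Pool.Agent.Helper60.P.nice0 h r.1 r.2)
  have h1 := prod_delta (ι := Tx N d) (I := {r : Fin k // N r = l + 1} × {j : Fin k // N j = l + 1})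
    (fun r K _ _ c => ∀ (Ω : Type) [Field Ω] [Algebra K Ω] (x : Pt N Ω), GenPt K c r.1.1 x →
      ∀ lam : Fin l → Ω,
          (∀ b, ∑ i, lam i * dF (fun e => algebraMap K Ω (c e)) x r.2.1 b i = 0) → lam = 0)
    (fun r => Pool.Agent.Helper60.P.nice1 h r.1.1 r.1.2 r.2.1 r.2.2)
  have h2 := prod_delta (ι := Tx N d) (I := {r : Fin k // N r = l + 1} ×
      {j : Fin k × Fin l // N j.1 = l ∧ d j.2 j.1 = 2})
    (fun r K _ _ c => ∀ (Ω : Type) [Field Ω] [Algebra K Ω] (x : Pt N Ω), GenPt K c r.1.1 x →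
      ∀ lam : Fin l → Ω, lam r.2.1.2 = 0 →
          (∀ b, ∑ i, lam i * dF (fun e => algebraMap K Ω (c e)) x r.2.1.1 b i = 0) → lam = 0)
    (fun r => Pool.Agent.Helper66.P.nice2 h r.1.1 r.1.2 r.2.1.1 r.2.2.1 r.2.1.2 r.2.2.2)
  have h3 := prod_delta (ι := Tx N d) (I := {r : Fin k // N r = l + 1} ×
      {j : Fin k × Fin l // N j.1 = l ∧ d j.2 j.1 = 2})
    (fun r K _ _ c => ∀ (Ω : Type) [Field Ω] [Algebra K Ω] (x : Pt N Ω), GenPt K c r.1.1 x →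
      ∀ b : Fin (N r.2.1.1 + 1) → Ω, b 0 = 0 →
          (∀ i, dF (fun e => algebraMap K Ω (c e)) x r.2.1.1 b i = 0) →
          Fm (fun e => algebraMap K Ω (c e)) (Function.update x r.2.1.1 b) r.2.1.2 = 0 → b = 0)
    (fun r => Pool.Agent.Helper91.P.nice3 h r.1.1 r.1.2 r.2.1.1 r.2.2.1 r.2.1.2 r.2.2.2)
  obtain ⟨D0, a0, b0⟩ := h0
  obtain ⟨D1, a1, b1⟩ := h1
  obtain ⟨D2, a2, b2⟩ := h2
  obtain ⟨D3, a3, b3⟩ := h3
  refine ⟨D0 * D1 * D2 * D3, mul_ne_zero (mul_ne_zero (mul_ne_zero a0 a1) a2) a3,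
    fun K _ _ c hc => ?_⟩
  simp only [map_mul, ne_eq, mul_eq_zero, not_or] at hc
  obtain ⟨⟨⟨c0, c1⟩, c2⟩, c3⟩ := hc
  intro r hr Ω _ _ x hx
  refine ⟨⟨fun j hj => b1 K c c1 (⟨r, hr⟩, ⟨j, hj⟩) Ω x hx,
    fun j hj i0 hi => b2 K c c2 (⟨r, hr⟩, ⟨(j, i0), hj, hi⟩) Ω x hx,
    fun j hj i0 hi => b3 K c c3 (⟨r, hr⟩, ⟨(j, i0), hj, hi⟩) Ω x hx⟩,
    b0 K c c0 ⟨r, hr⟩ Ω x hx⟩

end Pool.Agent.Helper88.P
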